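import Pool.Agent.W703.GP.Fin4

/-! There is an open set of full measure in the space of convex quadrilaterals such that finitely
many Dirichlet eigenvalues of a quadrilateral in it determine it, up to finitely many
possibilities, among all convex quadrilaterals and triangles. -/

open Set MeasureTheory
open Pool.Agent.W780.PG (IsConvexPolygon region)
open Pool.Agent.W703.GP (Isospectral dirichletEigenvalue)

namespace Pool.Agent.Results.MP_2805c2_an.GenericQuadrilaterals

/-- There is an open set `G` of lists of four points of the plane, containing Lebesgue-almost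
every list of the vertices of a convex quadrilateral, such that each `p` in `G` lists the
vertices of a convex quadrilateral, and for some `K`: no triangle has the same first `K`
eigenvalues as `p`, and the convex quadrilaterals with the same first `K` Dirichlet eigenvalues
as `p` are isospectral to `p` and form finitely many congruence classes. -/
theorem result :
    ∃ G : Set (Fin (1 + 3) → ℂ), IsOpen G ∧ volume ({p | IsConvexPolygon p} \ G) = 0 ∧
      ∀ p ∈ G, IsConvexPolygon p ∧ ∃ (K : ℕ) (S : Set (Set ℂ)), S.Finite ∧
        (∀ q : Fin (1 + 3) → ℂ, IsConvexPolygon q →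
          (∀ k, 1 ≤ k → k ≤ K →
            dirichletEigenvalue (region p) k = dirichletEigenvalue (region q) k) →
          Isospectral (region p) (region q) ∧ ∃ Q ∈ S, ∃ φ : ℂ ≃ᵢ ℂ, φ '' Q = region q) ∧
        ∀ q : Fin (0 + 3) → ℂ, IsConvexPolygon q → ∃ k, 1 ≤ k ∧ k ≤ K ∧
          dirichletEigenvalue (region p) k ≠ dirichletEigenvalue (region q) k := by
  obtain ⟨G, hG, h0, h1⟩ := Pool.Agent.W703.GP.open_full_measure 1
  refine ⟨G, hG, h0, fun p hp => ?_⟩
  obtain ⟨hc, K, S, hS, h2⟩ := h1 p hp
  refine ⟨hc, K, S, hS, fun q hq h => (h2 1 le_rfl q hq h).2, fun q hq => ?_⟩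
  by_contra hcon
  push Not at hcon
  have h3 := (h2 0 (Nat.zero_le 1) q hq hcon).1
  exact absurd h3 (by norm_num)

end Pool.Agent.Results.MP_2805c2_an.GenericQuadrilaterals
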